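import Pool.Agent.L0h45.NF.Bas

/-!
# Project NF, modules CSQ and DE
-/

set_option autoImplicit false

open NumberField Finset

namespace Pool.Agent.L0h9.NF

open Pool.Agent.L0h45.NF

section

variable {F : Type} [Field F] [NumberField F]

theorem fin_dvd {𝔞 : Ideal (𝓞 F)} (h : 𝔞 ≠ ⊥) : {𝔡 : Ideal (𝓞 F) | 𝔡 ∣ 𝔞}.Finite := by
  have h1 : ({𝔡 : Ideal (𝓞 F) | Ideal.absNorm 𝔡 ≤ Ideal.absNorm 𝔞}).Finite :=
    Ideal.finite_setOf_absNorm_le _
  refine h1.subset fun 𝔡 hd => ?_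
  have h2 : Ideal.absNorm 𝔡 ∣ Ideal.absNorm 𝔞 := map_dvd Ideal.absNorm hd
  have h3 : Ideal.absNorm 𝔞 ≠ 0 := by
    rw [Ne, Ideal.absNorm_eq_zero_iff]
    exact h
  exact Nat.le_of_dvd (Nat.pos_of_ne_zero h3) h2

/-- cancellation of ideals -/
theorem mem_of_mul_le {𝔡 𝔪 : Ideal (𝓞 F)} (h0 : 𝔡 ≠ ⊥) {x : 𝓞 F}
    (h : ∀ y ∈ 𝔡, y * x ∈ 𝔡 * 𝔪) : x ∈ 𝔪 := by
  have h1 : 𝔡 * Ideal.span {x} ≤ 𝔡 * 𝔪 := by
    rw [Ideal.mul_le]
    intro y hy z hz
    obtain ⟨w, rfl⟩ := Ideal.mem_span_singleton'.1 hz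
    have h2 : y * (w * x) = w * (y * x) := by ring
    rw [h2]
    exact Ideal.mul_mem_left _ _ (h y hy)
  have h2 : 𝔪 ∣ Ideal.span {x} := by
    have h3 := Ideal.dvd_iff_le.2 h1
    exact (mul_dvd_mul_iff_left (show 𝔡 ≠ 0 from h0)).1 h3
  exact (Ideal.dvd_iff_le.1 h2) (Ideal.mem_span_singleton_self x)

end

/-- **CSQ** -/
theorem csq (hBox : S_BOX) : S_CSQ := by
  classical
  intro F _ _ 𝔤 h𝔤 ν L hL S hS
  have hNg := NI_ge_one h𝔤
  have hb0 : 0 ≤ (2 * L) ^ Module.finrank ℚ F / √(NI 𝔤) := by positivity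
  rcases S.eq_empty_or_nonempty with rfl | ⟨c0, hc0⟩
  · have : 0 ≤ tau 𝔤 := Nat.cast_nonneg _
    rw [Finset.card_empty, Nat.cast_zero]
    positivity
  set g : 𝓞 F → Ideal (𝓞 F) := fun c => 𝔤 ⊔ Ideal.span {c - c0} with hg
  have hgd : ∀ c, g c ∣ 𝔤 := fun c => Ideal.dvd_iff_le.2 le_sup_left
  have h1 : (S.card : ℝ) = ∑ 𝔡 ∈ S.image g, ((S.filter fun c => g c = 𝔡).card : ℝ) := by
    rw [← Nat.cast_sum]
    congr 1
    exact Finset.card_eq_sum_card_image g S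
  have h2 : ∀ 𝔡 ∈ S.image g, ((S.filter fun c => g c = 𝔡).card : ℝ) ≤
      16 * ((2 * L) ^ Module.finrank ℚ F / √(NI 𝔤) + 1) := by
    intro 𝔡 hd
    obtain ⟨c1, hc1, hc1d⟩ := mem_image.1 hd
    obtain ⟨𝔤', hg'⟩ : 𝔡 ∣ 𝔤 := by rw [← hc1d]; exact hgd c1
    have hd0 : 𝔡 ≠ ⊥ := by
      rintro rfl
      apply h𝔤
      rw [hg', ← Ideal.zero_eq_bot, zero_mul]
    have hg0 : 𝔤' ≠ ⊥ := by
      rintro rfl
      apply h𝔤
      rw [hg', ← Ideal.zero_eq_bot, mul_zero]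
    -- the ideal of the differences
    have hm0 : 𝔡 ⊓ 𝔤' ≠ ⊥ := by
      intro h0
      apply h𝔤
      rw [hg', eq_bot_iff, ← h0]
      exact Ideal.mul_le_inf
    have hm1 : NI 𝔤 ≤ NI (𝔡 ⊓ 𝔤') ^ 2 := by
      rw [pow_two, ← NI_mul]
      refine NI_le_of_le ?_ (mul_ne_zero hm0 hm0)
      rw [hg']
      exact Ideal.mul_mono inf_le_left inf_le_right
    have hm2 : √(NI 𝔤) ≤ NI (𝔡 ⊓ 𝔤') := Real.sqrt_le_iff.2 ⟨Nat.cast_nonneg _, hm1⟩
    have hplus : ∀ c ∈ S, g c = 𝔡 → c + c0 ∈ 𝔤' := by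
      intro c hc hcd
      refine mem_of_mul_le hd0 fun y hy => ?_
      rw [← hcd, hg] at hy
      obtain ⟨u, hu, v, hv, rfl⟩ := Submodule.mem_sup.1 hy
      obtain ⟨w, rfl⟩ := Ideal.mem_span_singleton'.1 hv
      rw [← hg', add_mul]
      refine 𝔤.add_mem (𝔤.mul_mem_right _ hu) ?_
      have h3 : w * (c - c0) * (c + c0) = w * ((c ^ 2 - ν) - (c0 ^ 2 - ν)) := by ring
      rw [h3]
      exact 𝔤.mul_mem_left _ (𝔤.sub_mem (hS c hc).1 (hS c0 hc0).1)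
    have hminus : ∀ c ∈ S, g c = 𝔡 → c - c0 ∈ 𝔡 := by
      intro c _ hcd
      rw [← hcd]
      exact (le_sup_right : Ideal.span {c - c0} ≤ 𝔤 ⊔ Ideal.span {c - c0})
        (Ideal.mem_span_singleton_self _)
    have h3 := hBox F (𝔡 ⊓ 𝔤') hm0 (fun _ => 2 * L) (fun _ => by positivity)
      (S.filter fun c => g c = 𝔡) (by
        intro x hx y hy
        obtain ⟨hx1, hx2⟩ := mem_filter.1 hx
        obtain ⟨hy1, hy2⟩ := mem_filter.1 hy
        refine ⟨⟨?_, ?_⟩, ?_⟩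
        · have h4 := 𝔡.sub_mem (hminus x hx1 hx2) (hminus y hy1 hy2)
          rwa [sub_sub_sub_cancel_right] at h4
        · have h4 := 𝔤'.sub_mem (hplus x hx1 hx2) (hplus y hy1 hy2)
          rwa [add_sub_add_right_eq_sub] at h4
        · intro σ
          have h4 := (hS x hx1).2.sub (hS y hy1).2 σ
          rwa [← two_mul] at h4)
    refine h3.trans ?_
    rw [Finset.prod_const, Finset.card_univ, card_emb]
    refine mul_le_mul_of_nonneg_left (add_le_add (div_le_div_of_nonneg_left (by positivity) ?_ hm2) le_rfl)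
      (by norm_num)
    exact Real.sqrt_pos.2 (by linarith)
  rw [h1]
  refine (Finset.sum_le_sum h2).trans ?_
  rw [Finset.sum_const, nsmul_eq_mul]
  have h3 : ((S.image g).card : ℝ) ≤ tau 𝔤 := by
    unfold tau
    have h4 : (((S.image g : Finset (Ideal (𝓞 F))) : Set (Ideal (𝓞 F)))).ncard ≤
        {𝔡 : Ideal (𝓞 F) | 𝔡 ∣ 𝔤}.ncard := Set.ncard_le_ncard (fun 𝔡 hd => by
      obtain ⟨c, _, rfl⟩ := mem_image.1 (mem_coe.1 hd)
      exact hgd c) (fin_dvd h𝔤)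
    rw [Set.ncard_coe_finset] at h4
    exact_mod_cast h4
  calc ((S.image g).card : ℝ) * (16 * ((2 * L) ^ Module.finrank ℚ F / √(NI 𝔤) + 1))
      ≤ tau 𝔤 * (16 * ((2 * L) ^ Module.finrank ℚ F / √(NI 𝔤) + 1)) :=
        mul_le_mul_of_nonneg_right h3 (by positivity)
    _ = 16 * tau 𝔤 * ((2 * L) ^ Module.finrank ℚ F / √(NI 𝔤) + 1) := by ring

theorem Nm_nat {F : Type} [Field F] [NumberField F] (k : ℕ) :
    Nm (k : 𝓞 F) = (k : ℝ) ^ Module.finrank ℚ F := by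
  rw [← prod_norm, ← card_emb (F := F), ← Finset.card_univ, ← Finset.prod_const]
  refine Finset.prod_congr rfl fun σ _ => ?_
  have h1 : σ ((k : 𝓞 F) : F) = (k : ℂ) := by
    rw [show ((k : 𝓞 F) : F) = (k : F) by push_cast; rfl, map_natCast]
  rw [h1, Complex.norm_natCast]

/-- **DE** -/
theorem de (hBox : S_BOX) : S_DE := by
  classical
  intro F _ _ a b m ha hb D E hD hE S hS
  set n := Module.finrank ℚ F with hn
  have hNa : 0 < Nm a := Nm_pos ha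
  have hNb : 0 < Nm b := Nm_pos hb
  have h12 : (12 : 𝓞 F) * a ≠ 0 := mul_ne_zero (by norm_num) ha
  have hg0 : gd a b ≠ ⊥ := by
    intro h0
    apply h12
    have h1 : 12 * a ∈ gd a b := Ideal.subset_span (by simp)
    rw [h0] at h1
    exact h1
  have hNg := NI_ge_one hg0
  obtain ⟨𝔞, h𝔞⟩ : gd a b ∣ Ideal.span {12 * a} := by
    rw [Ideal.dvd_iff_le, Ideal.span_singleton_le_iff_mem]
    exact Ideal.subset_span (by simp)
  have h𝔞0 : 𝔞 ≠ ⊥ := by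
    rintro rfl
    rw [← Ideal.zero_eq_bot, mul_zero, Ideal.zero_eq_bot, Ideal.span_singleton_eq_bot] at h𝔞
    exact h12 h𝔞
  have hN𝔞 : NI (gd a b) * NI 𝔞 = 12 ^ n * Nm a := by
    rw [← NI_mul, ← h𝔞, ← Nm_eq_NI, Nm_mul]
    have h1 := Nm_nat (F := F) 12
    push_cast at h1
    rw [h1]
  -- the differences
  have hdiff : ∀ z ∈ S, ∀ w ∈ S, 3 * b * (z.1 - w.1) = 12 * a * (z.2 - w.2) := by
    intro z hz w hw
    linear_combination (hS w hw).1 - (hS z hz).1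
  have hinj : Set.InjOn Prod.fst (S : Set (𝓞 F × 𝓞 F)) := by
    intro z hz w hw h
    refine Prod.ext h ?_
    have h1 := hdiff z hz w hw
    rw [h, sub_self, mul_zero] at h1
    have h2 := (mul_eq_zero.1 h1.symm).resolve_left h12
    exact sub_eq_zero.1 h2
  have hcard : S.card = (S.image Prod.fst).card := (Finset.card_image_of_injOn hinj).symm
  set ρ : (F →+* ℂ) → ℝ := fun σ => 4 * (√(D * E) * √(‖σ (a : F)‖ / ‖σ (b : F)‖)) with hρ
  have hσa : ∀ σ : F →+* ℂ, 0 < ‖σ (a : F)‖ := fun σ =>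
    norm_pos_iff.2 ((map_ne_zero σ).2 (by exact_mod_cast ha))
  have hσb : ∀ σ : F →+* ℂ, 0 < ‖σ (b : F)‖ := fun σ =>
    norm_pos_iff.2 ((map_ne_zero σ).2 (by exact_mod_cast hb))
  have h1 := hBox F 𝔞 h𝔞0 ρ (fun σ => by
      have := hσa σ
      have := hσb σ
      rw [hρ]
      positivity) (S.image Prod.fst) (by
    intro x hx y hy
    obtain ⟨z, hz, rfl⟩ := mem_image.1 hx
    obtain ⟨w, hw, rfl⟩ := mem_image.1 hy
    refine ⟨?_, fun σ => ?_⟩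
    · refine mem_of_mul_le hg0 fun y hy => ?_
      rw [← h𝔞]
      obtain ⟨u, v, rfl⟩ := Ideal.mem_span_pair.1 hy
      have h2 : (u * (12 * a) + v * (3 * b)) * (z.1 - w.1) =
          (u * (z.1 - w.1) + v * (z.2 - w.2)) * (12 * a) := by
        linear_combination v * hdiff z hz w hw
      rw [h2]
      exact Ideal.mul_mem_left _ _ (Ideal.mem_span_singleton_self _)
    · have hx1 : ‖σ ((z.1 - w.1 : 𝓞 F) : F)‖ ≤ 2 * D := by
        have h2 := (hS z hz).2.1.sub (hS w hw).2.1 σ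
        linarith
      have hx2 : ‖σ ((z.2 - w.2 : 𝓞 F) : F)‖ ≤ 2 * E := by
        have h2 := (hS z hz).2.2.sub (hS w hw).2.2 σ
        linarith
      have hx3 : 3 * ‖σ (b : F)‖ * ‖σ ((z.1 - w.1 : 𝓞 F) : F)‖ =
          12 * ‖σ (a : F)‖ * ‖σ ((z.2 - w.2 : 𝓞 F) : F)‖ := by
        have h2 := congrArg (fun t : 𝓞 F => ‖σ (t : F)‖) (hdiff z hz w hw)
        simp only [map_mul, norm_mul] at h2
        have h3 : ‖σ (((3 : 𝓞 F)) : F)‖ = 3 := by
          rw [show (((3 : 𝓞 F)) : F) = 3 by rfl, map_ofNat]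
          norm_num
        have h4 : ‖σ (((12 : 𝓞 F)) : F)‖ = 12 := by
          rw [show (((12 : 𝓞 F)) : F) = 12 by rfl, map_ofNat]
          norm_num
        rw [h3, h4] at h2
        exact h2
      have hA := hσa σ
      have hB := hσb σ
      have hx4 : ‖σ ((z.1 - w.1 : 𝓞 F) : F)‖ ≤ 8 * E * (‖σ (a : F)‖ / ‖σ (b : F)‖) := by
        rw [← mul_div_assoc, le_div_iff₀ hB]
        nlinarith
      have hx5 : ‖σ ((z.1 - w.1 : 𝓞 F) : F)‖ ^ 2 ≤ 16 * (D * E * (‖σ (a : F)‖ / ‖σ (b : F)‖)) := by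
        calc ‖σ ((z.1 - w.1 : 𝓞 F) : F)‖ ^ 2
            = ‖σ ((z.1 - w.1 : 𝓞 F) : F)‖ * ‖σ ((z.1 - w.1 : 𝓞 F) : F)‖ := pow_two _
          _ ≤ 2 * D * (8 * E * (‖σ (a : F)‖ / ‖σ (b : F)‖)) :=
            mul_le_mul hx1 hx4 (norm_nonneg _) (by positivity)
          _ = _ := by ring
      have hx6 : ρ σ = √(16 * (D * E * (‖σ (a : F)‖ / ‖σ (b : F)‖))) := by
        have e0 : (0 : ℝ) ≤ 4 ^ 2 := by norm_num
        have e1 : (0 : ℝ) ≤ D * E := by positivity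
        rw [hρ, show (16 : ℝ) = 4 ^ 2 by norm_num, Real.sqrt_mul e0, Real.sqrt_mul e1,
          Real.sqrt_sq (by norm_num : (0 : ℝ) ≤ 4)]
      rw [hx6]
      exact Real.le_sqrt_of_sq_le hx5)
  rw [hcard]
  refine h1.trans ?_
  have hprod : ∏ σ, ρ σ = 4 ^ n * (√((D * E) ^ n) * (√(Nm a) / √(Nm b))) := by
    rw [hρ, Finset.prod_mul_distrib, Finset.prod_mul_distrib, Finset.prod_const, Finset.prod_const,
      Finset.card_univ, card_emb]
    congr 2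
    · have e1 : (0 : ℝ) ≤ D * E := by positivity
      rw [← Real.sqrt_sq (show 0 ≤ √(D * E) ^ Module.finrank ℚ F by positivity), ← pow_mul,
        mul_comm _ 2, pow_mul, Real.sq_sqrt e1]
    · rw [← prod_norm, ← prod_norm]
      rw [← Real.sqrt_div (Finset.prod_nonneg fun _ _ => norm_nonneg _), ← Finset.prod_div_distrib]
      exact (Real.sqrt_prod _ fun σ _ => div_nonneg (norm_nonneg _) (norm_nonneg _)).symm
  rw [hprod]
  have hNa' : NI 𝔞 = 12 ^ n * Nm a / NI (gd a b) := by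
    rw [eq_div_iff (by linarith), mul_comm]
    exact hN𝔞
  rw [hNa']
  have hs : √(Nm a) * √(Nm a) = Nm a := Real.mul_self_sqrt hNa.le
  have hsa : 0 < √(Nm a) := Real.sqrt_pos.2 hNa
  have hsb : 0 < √(Nm b) := Real.sqrt_pos.2 hNb
  have heq : 4 ^ n * (√((D * E) ^ n) * (√(Nm a) / √(Nm b))) / (12 ^ n * Nm a / NI (gd a b)) =
      (1 / 3 ^ n) * (NI (gd a b) * √((D * E) ^ n) / √(Nm a * Nm b)) := by
    rw [Real.sqrt_mul hNa.le, show (12 : ℝ) ^ n = 4 ^ n * 3 ^ n by rw [← mul_pow]; norm_num]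
    nth_rewrite 2 [← hs]
    field_simp
  rw [heq]
  refine mul_le_mul_of_nonneg_left (add_le_add ?_ le_rfl) (by norm_num)
  refine mul_le_of_le_one_left (by positivity) ?_
  rw [div_le_one (by positivity)]
  exact one_le_pow₀ (by norm_num)

end Pool.Agent.L0h9.NF
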