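import Pool.Agent.L0h45.NF.Bas
import Pool.Agent.L0h75.GN.Zb
import Pool.Agent.N490.PF.Pts

/-!
# Project NF, modules ZETA and UNI
-/

set_option autoImplicit false

open NumberField Finset

namespace Pool.Agent.L0h9.NF

open Pool.Agent.L0h45.NF

section

variable {F : Type} [Field F] [NumberField F]

/-- finitely many divisors -/
theorem fin_div {𝔞 : Ideal (𝓞 F)} (h : 𝔞 ≠ ⊥) : {𝔡 : Ideal (𝓞 F) | 𝔡 ∣ 𝔞}.Finite := by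
  have h1 : ({𝔡 : Ideal (𝓞 F) | Ideal.absNorm 𝔡 ≤ Ideal.absNorm 𝔞}).Finite :=
    Ideal.finite_setOf_absNorm_le _
  refine h1.subset fun 𝔡 hd => ?_
  have h2 : Ideal.absNorm 𝔡 ∣ Ideal.absNorm 𝔞 := map_dvd Ideal.absNorm hd
  have h3 : Ideal.absNorm 𝔞 ≠ 0 := by
    rw [Ne, Ideal.absNorm_eq_zero_iff]
    exact h
  exact Nat.le_of_dvd (Nat.pos_of_ne_zero h3) h2

theorem NI_pow {𝔞 : Ideal (𝓞 F)} (h : 𝔞 ≠ ⊥) :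
    (NI 𝔞 * √(NI 𝔞))⁻¹ = NI 𝔞 ^ (-(3 / 2) : ℝ) := by
  have h0 : 0 < NI 𝔞 := lt_of_lt_of_le one_pos (NI_ge_one h)
  rw [Real.rpow_neg h0.le, show (3 / 2 : ℝ) = 1 + 1 / 2 by norm_num, Real.rpow_add h0,
    Real.rpow_one, Real.sqrt_eq_rpow]

/-- the weight is multiplicative -/
theorem wt_mul (𝔡 𝔢 : Ideal (𝓞 F)) :
    (NI (𝔡 * 𝔢)) ^ (-(3 / 2) : ℝ) = NI 𝔡 ^ (-(3 / 2) : ℝ) * NI 𝔢 ^ (-(3 / 2) : ℝ) := by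
  have h1 : 0 ≤ NI 𝔡 := Nat.cast_nonneg _
  have h2 : 0 ≤ NI 𝔢 := Nat.cast_nonneg _
  rw [NI_mul, Real.mul_rpow h1 h2]

end

/-- **ZETA** -/
theorem zeta : S_ZETA := by
  classical
  intro F _ _
  obtain ⟨B, hB0, hB⟩ := Pool.Agent.L0h75.GN.zeta_bound (Module.finrank ℚ F)
  refine ⟨B * B, by positivity, fun T hT => ?_⟩
  -- all divisors
  set D : Ideal (𝓞 F) → Finset (Ideal (𝓞 F)) := fun 𝔥 =>
    if h : 𝔥 ≠ ⊥ then (fin_div h).toFinset else ∅ with hD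
  have hDm : ∀ 𝔥 ∈ T, ∀ 𝔡, 𝔡 ∈ D 𝔥 ↔ 𝔡 ∣ 𝔥 := by
    intro 𝔥 h 𝔡
    rw [hD]
    simp only [dif_pos (hT 𝔥 h), Set.Finite.mem_toFinset, Set.mem_setOf_eq]
  set U : Finset (Ideal (𝓞 F)) := T.biUnion D with hU
  have hU0 : ∀ 𝔡 ∈ U, 𝔡 ≠ ⊥ := by
    intro 𝔡 h h0
    obtain ⟨𝔥, h1, h2⟩ := mem_biUnion.1 h
    rw [hDm 𝔥 h1, h0, ← Ideal.zero_eq_bot, zero_dvd_iff] at h2
    exact hT 𝔥 h1 h2
  have hsum : ∑ 𝔡 ∈ U, NI 𝔡 ^ (-(3 / 2) : ℝ) ≤ B := hB F rfl U hU0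
  -- the pairs (𝔡, 𝔢) with 𝔡 𝔢 = 𝔥
  have h1 : ∀ 𝔥 ∈ T, tau 𝔥 / (NI 𝔥 * √(NI 𝔥)) =
      ∑ z ∈ (U ×ˢ U).filter (fun z => z.1 * z.2 = 𝔥), NI z.1 ^ (-(3 / 2) : ℝ) * NI z.2 ^ (-(3 / 2) : ℝ) := by
    intro 𝔥 h
    have h2 : ∀ z ∈ (U ×ˢ U).filter (fun z => z.1 * z.2 = 𝔥),
        NI z.1 ^ (-(3 / 2) : ℝ) * NI z.2 ^ (-(3 / 2) : ℝ) = (NI 𝔥 * √(NI 𝔥))⁻¹ := by
      intro z hz
      rw [NI_pow (hT 𝔥 h), ← (mem_filter.1 hz).2, wt_mul]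
    rw [Finset.sum_congr rfl h2, Finset.sum_const, nsmul_eq_mul, div_eq_mul_inv]
    congr 1
    have h3 : {𝔡 : Ideal (𝓞 F) | 𝔡 ∣ 𝔥} = ((D 𝔥 : Finset (Ideal (𝓞 F))) : Set (Ideal (𝓞 F))) := by
      ext 𝔡
      rw [Set.mem_setOf_eq, mem_coe, hDm 𝔥 h]
    unfold tau
    rw [h3, Set.ncard_coe_finset]
    congr 1
    refine Finset.card_bij (fun 𝔡 _ => (𝔡, (if h : 𝔡 ∣ 𝔥 then h.choose else ⊥))) ?_ ?_ ?_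
    · intro 𝔡 hd
      have hd' := (hDm 𝔥 h 𝔡).1 hd
      have h4 : 𝔥 = 𝔡 * hd'.choose := hd'.choose_spec
      rw [mem_filter, mem_product]
      simp only [dif_pos hd']
      refine ⟨⟨mem_biUnion.2 ⟨𝔥, h, hd⟩, mem_biUnion.2 ⟨𝔥, h, (hDm 𝔥 h _).2 ⟨𝔡, ?_⟩⟩⟩, h4.symm⟩
      rw [mul_comm]
      exact h4
    · intro 𝔡 _ 𝔡' _ heq
      exact (Prod.ext_iff.1 heq).1
    · intro z hz
      obtain ⟨hz1, hz2⟩ := mem_filter.1 hz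
      have hd : z.1 ∣ 𝔥 := ⟨z.2, hz2.symm⟩
      refine ⟨z.1, (hDm 𝔥 h _).2 hd, ?_⟩
      refine Prod.ext rfl ?_
      simp only [dif_pos hd]
      have h4 : 𝔥 = z.1 * hd.choose := hd.choose_spec
      have h5 : z.1 ≠ 0 := by
        intro h0
        rw [h0, zero_mul] at hz2
        exact hT 𝔥 h hz2.symm
      exact mul_left_cancel₀ h5 (h4.symm.trans hz2.symm)
  rw [Finset.sum_congr rfl h1]
  have h2 : ∑ 𝔥 ∈ T, ∑ z ∈ (U ×ˢ U).filter (fun z => z.1 * z.2 = 𝔥),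
      NI z.1 ^ (-(3 / 2) : ℝ) * NI z.2 ^ (-(3 / 2) : ℝ) ≤
      ∑ z ∈ U ×ˢ U, NI z.1 ^ (-(3 / 2) : ℝ) * NI z.2 ^ (-(3 / 2) : ℝ) := by
    refine Finset.sum_fiberwise_le_sum_of_sum_fiber_nonneg fun 𝔥 _ => ?_
    exact Finset.sum_nonneg fun z _ =>
      mul_nonneg (Real.rpow_nonneg (Nat.cast_nonneg _) _) (Real.rpow_nonneg (Nat.cast_nonneg _) _)
  refine h2.trans ?_
  rw [Finset.sum_product]
  simp only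
  rw [← Finset.sum_mul_sum]
  exact mul_le_mul hsum hsum
    (Finset.sum_nonneg fun _ _ => Real.rpow_nonneg (Nat.cast_nonneg _) _) hB0.le

/-- **UNI** -/
theorem uni : S_UNI := by
  intro F _ _
  obtain ⟨-, C, hC, h, -⟩ := Pool.Agent.N490.PF.pts F
  refine ⟨1 / C, by positivity, fun R hR => ⟨(h R hR).1, ?_⟩⟩
  rw [one_div, inv_mul_le_iff₀ hC]
  exact (h R hR).2

end Pool.Agent.L0h9.NF
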